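import Pool.Agent.helper53.ORE.Spec

set_option autoImplicit false

namespace Pool.Agent.ORE

open Module Pool.Agent.GS

section R3B

variable {F V : Type} [Field F] [AddCommGroup V] [Module F V]

theorem R3B_hyp {Q : QuadraticForm F V} (h2 : (2 : F) = 0) (hnd : Nd Q) {e : V} (he : e ≠ 0)
    (hQe : Q e = 0) : ∃ f, Q f = 0 ∧ pb Q e f = 1 := by
  have h1 : ∃ f', pb Q e f' ≠ 0 := by
    by_contra h
    push Not at h
    exact he (hnd e h)
  obtain ⟨f', hf'⟩ := h1
  obtain ⟨f₁, h3⟩ : ∃ f₁, pb Q e f₁ = 1 := ⟨(pb Q e f')⁻¹ • f', by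
    rw [map_smul, smul_eq_mul, inv_mul_cancel₀ hf']⟩
  have h3' : pb Q f₁ e = 1 := by rw [pb_symm, h3]
  refine ⟨f₁ + Q f₁ • e, ?_, ?_⟩
  · rw [Q_add, Q_smul, hQe, map_smul, h3', smul_eq_mul, mul_one, mul_zero, add_zero, add2 h2]
  · rw [map_add, map_smul, pb_self2 h2, h3, smul_zero, add_zero]

theorem R3B_sing [Finite F] [FiniteDimensional F V] (cw : CWQ_stmt) (ns : NSV_stmt)
    (Q : QuadraticForm F V) (h2 : (2 : F) = 0) (hnd : Nd Q) (hV : 8 ≤ finrank F V)
    (y : Equiv.Perm V) (hy : y ∈ OQ Q) (hy1 : y ≠ 1) :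
    ∃ u, Q u = 0 ∧ u ≠ 0 ∧ ∀ c : F, y u ≠ c • u := by
  by_contra hno
  push Not at hno
  obtain ⟨e, -, he, hQe⟩ := (cw Q Q).1 ⊤ (by rw [finrank_top]; omega)
  obtain ⟨f, hQf, hef⟩ := R3B_hyp h2 hnd he hQe
  have hfe : pb Q f e = 1 := by rw [pb_symm, hef]
  have hf : f ≠ 0 := by
    rintro rfl
    rw [map_zero] at hef
    exact zero_ne_one hef
  obtain ⟨α, hα⟩ := hno e hQe he
  obtain ⟨β, hβ⟩ := hno f hQf hf
  have hαβ : α * β = 1 := by
    have := OQ_pb hy e f
    rw [hα, hβ, map_smul, LinearMap.map_smul₂, hef, smul_eq_mul, smul_eq_mul, mul_one] at this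
    linear_combination this
  have hα0 : α ≠ 0 := left_ne_zero_of_mul_eq_one hαβ
  have hβ0 : β ≠ 0 := right_ne_zero_of_mul_eq_one hαβ
  have hye : ∀ g, pb Q g e = 0 → pb Q (y g) e = 0 := by
    intro g hg
    have := OQ_pb hy g e
    rw [hα, map_smul, hg, smul_eq_mul] at this
    exact (mul_eq_zero.1 this).resolve_left hα0
  have hyf : ∀ g, pb Q g f = 0 → pb Q (y g) f = 0 := by
    intro g hg
    have := OQ_pb hy g f
    rw [hβ, map_smul, hg, smul_eq_mul] at this
    exact (mul_eq_zero.1 this).resolve_left hβ0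
  have hg : ∀ g, pb Q g e = 0 → pb Q g f = 0 → ∃ c, y (e + g + Q g • f) = c • (e + g + Q g • f) ∧
      c = α ∧ Q g * c = Q g * β := by
    intro g hge hgf
    have hQ : Q (e + g + Q g • f) = 0 := by
      rw [Q_add, Q_add, Q_smul, hQe, hQf, pb_symm Q e g, hge, map_smul, map_add,
        LinearMap.add_apply, hef, hgf, smul_eq_mul]
      linear_combination (Q g) * h2
    have hBf : pb Q (e + g + Q g • f) f = 1 := by
      rw [map_add, map_add, LinearMap.add_apply, LinearMap.add_apply, map_smul,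
        LinearMap.smul_apply, hef, hgf, pb_self2 h2, smul_zero, add_zero, add_zero]
    have hBe : pb Q (e + g + Q g • f) e = Q g := by
      rw [map_add, map_add, LinearMap.add_apply, LinearMap.add_apply, map_smul,
        LinearMap.smul_apply, hfe, hge, pb_self2 h2, smul_eq_mul, mul_one, zero_add, zero_add]
    have hne : e + g + Q g • f ≠ 0 := by
      intro h0
      rw [h0, map_zero, LinearMap.zero_apply] at hBf
      exact zero_ne_one hBf
    obtain ⟨c, hc⟩ := hno _ hQ hne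
    have hyv : y (e + g + Q g • f) = α • e + y g + Q g • (β • f) := by
      rw [hy.1.1, hy.1.1, hy.1.2, hα, hβ]
    refine ⟨c, hc, ?_, ?_⟩
    · have h5 : pb Q (y (e + g + Q g • f)) f = c := by
        rw [hc, map_smul, LinearMap.smul_apply, hBf, smul_eq_mul, mul_one]
      rw [hyv] at h5
      simp only [map_add, LinearMap.add_apply, map_smul, LinearMap.smul_apply, smul_eq_mul,
        hef, hyf g hgf, pb_self2 h2, mul_zero, add_zero, mul_one] at h5
      exact h5.symm
    · have h5 : pb Q (y (e + g + Q g • f)) e = c * Q g := by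
        rw [hc, map_smul, LinearMap.smul_apply, hBe, smul_eq_mul]
      rw [hyv] at h5
      simp only [map_add, LinearMap.add_apply, map_smul, LinearMap.smul_apply, smul_eq_mul,
        hfe, hye g hge, pb_self2 h2, mul_zero, add_zero, zero_add, mul_one] at h5
      linear_combination -h5
  have hα1 : α = 1 := by
    obtain ⟨g, hg1, hg2⟩ := ns Q h2 hnd 2 ![e, f] (by omega)
    have hge : pb Q g e = 0 := hg1 0
    have hgf : pb Q g f = 0 := hg1 1
    obtain ⟨c, -, h5, h6⟩ := hg g hge hgf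
    rw [hg2, one_mul, one_mul] at h6
    have h7 : α * α = 1 := by
      rw [← h5, h6, ← hαβ, ← h5, h6]
    have h8 : (α - 1) * (α - 1) = 0 := by linear_combination h7 + (1 - α) * h2
    have h9 := mul_self_eq_zero.1 h8
    linear_combination h9
  have hβ1 : β = 1 := by
    rw [hα1, one_mul] at hαβ
    exact hαβ
  have hfix : ∀ g, pb Q g e = 0 → pb Q g f = 0 → y g = g := by
    intro g hge hgf
    obtain ⟨c, h4, h5, -⟩ := hg g hge hgf
    rw [h5, hα1, one_smul, hy.1.1, hy.1.1, hy.1.2, hα, hβ, hα1, hβ1, one_smul, one_smul] at h4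
    exact add_left_cancel (add_right_cancel h4)
  apply hy1
  ext v
  have h5 : pb Q (v + pb Q v f • e + pb Q v e • f) e = 0 := by
    rw [map_add, map_add, LinearMap.add_apply, LinearMap.add_apply, map_smul, map_smul,
      LinearMap.smul_apply, LinearMap.smul_apply, pb_self2 h2, hfe, smul_zero, smul_eq_mul,
      mul_one, add_zero, add2 h2]
  have h6 : pb Q (v + pb Q v f • e + pb Q v e • f) f = 0 := by
    rw [map_add, map_add, LinearMap.add_apply, LinearMap.add_apply, map_smul, map_smul,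
      LinearMap.smul_apply, LinearMap.smul_apply, pb_self2 h2, hef, smul_zero, smul_eq_mul,
      mul_one, add_zero, add2 h2]
  have h7 := hfix _ h5 h6
  rw [hy.1.1, hy.1.1, hy.1.2, hy.1.2, hα, hβ, hα1, hβ1, one_smul, one_smul] at h7
  exact add_right_cancel (add_right_cancel h7)

theorem R3B_NS (z : Equiv.Perm V) (hz : Lin F z) (h2 : (2 : F) = 0) (u w : V)
    (hw : ∀ c : F, w ≠ c • u) (h1 : z u = u + w) (h3 : z w = u) : NS F 3 z := by
  have hz2 : z (z u) = w := by
    rw [h1, hz.1, h1, h3, add_assoc, add_comm w u, ← add_assoc, addV h2, zero_add]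
  have hz3 : (z ^ 3) u = u := by
    show z (z (z u)) = u
    rw [hz2, h3]
  have hq : ∀ q : ℕ, ((z ^ 3) ^ q) u = u := by
    intro q
    induction q with
    | zero => rfl
    | succ q ih => rw [pow_succ, Equiv.Perm.mul_apply, hz3, ih]
  intro j c hj
  have hj1 := hj u
  have hdecomp : z ^ j = z ^ (j % 3) * (z ^ 3) ^ (j / 3) := by
    rw [← pow_mul, ← pow_add, Nat.mod_add_div]
  rw [hdecomp, Equiv.Perm.mul_apply, hq] at hj1
  have hlt : j % 3 < 3 := Nat.mod_lt _ (by norm_num)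
  rcases Nat.lt_or_ge (j % 3) 1 with h | h
  · exact Nat.dvd_of_mod_eq_zero (by omega)
  · exfalso
    rcases Nat.lt_or_ge (j % 3) 2 with h' | h'
    · have h5 : j % 3 = 1 := by omega
      rw [h5, pow_one, h1] at hj1
      apply hw (c - 1)
      rw [sub_smul, one_smul, ← hj1]
      abel
    · have h5 : j % 3 = 2 := by omega
      rw [h5] at hj1
      have h6 : (z ^ 2) u = w := hz2
      rw [h6] at hj1
      exact hw c hj1

end R3B

theorem R3B (cw : CWQ_stmt) (ns : NSV_stmt) (sg : SGQ_stmt) : R3B_stmt := by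
  intro F V _ _ _ _ _ Q h2 hnd hV y hy hy1 τ hτ
  obtain ⟨u, hQu, hu0, hun⟩ := R3B_sing cw ns Q h2 hnd hV y hy hy1
  have hBuu : pb Q u (y u) = 0 := by rw [hτ, hQu, mul_zero]
  have hBuu' : pb Q (y u) u = 0 := by rw [pb_symm, hBuu]
  -- the vector `d₀`
  have hd₀ : ∃ d₀, pb Q u d₀ = 0 ∧ pb Q (y u) d₀ = 1 := by
    by_contra hno
    have hno' : ∀ d, pb Q u d = 0 → pb Q (y u) d = 0 := by
      intro d hd
      by_contra h0
      apply hno
      refine ⟨(pb Q (y u) d)⁻¹ • d, ?_, ?_⟩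
      · rw [map_smul, hd, smul_zero]
      · rw [map_smul, smul_eq_mul, inv_mul_cancel₀ h0]
    obtain ⟨f, -, huf⟩ := R3B_hyp h2 hnd hu0 hQu
    apply hun (pb Q (y u) f)
    have h5 : y u + pb Q (y u) f • u = 0 := by
      apply hnd
      intro x
      have h6 : pb Q u (x + pb Q u x • f) = 0 := by
        rw [map_add, map_smul, huf, smul_eq_mul, mul_one, add2 h2]
      have h7 := hno' _ h6
      rw [map_add, map_smul, smul_eq_mul] at h7
      rw [map_add, LinearMap.add_apply, map_smul, LinearMap.smul_apply, smul_eq_mul]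
      linear_combination h7
    exact eq_of_addV h2 h5
  obtain ⟨d₀, hud₀, hyd₀⟩ := hd₀
  obtain ⟨x, hx1, hx2⟩ := ns Q h2 hnd 3 ![u, y u, d₀] (by omega)
  have hxu : pb Q x u = 0 := hx1 0
  have hxy : pb Q x (y u) = 0 := hx1 1
  have hxd : pb Q x d₀ = 0 := hx1 2
  have hchar : ringChar F = 2 := CharP.ringChar_of_prime_eq_zero Nat.prime_two (by exact_mod_cast h2)
  obtain ⟨s, hs⟩ := FiniteField.isSquare_of_char_two hchar (Q d₀)
  set d := d₀ + s • x with hd
  have hQd : Q d = 0 := by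
    rw [hd, Q_add, Q_smul, hx2, map_smul, pb_symm Q d₀ x, hxd, smul_zero, add_zero, mul_one, hs,
      ← pow_two, add2 h2]
  have hud : pb Q u d = 0 := by
    rw [hd, map_add, map_smul, hud₀, pb_symm Q u x, hxu, smul_zero, add_zero]
  have hyud : pb Q (y u) d = 1 := by
    rw [hd, map_add, map_smul, hyd₀, pb_symm Q (y u) x, hxy, smul_zero, add_zero]
  have hdd : pb Q d (y d) = 0 := by rw [hτ, hQd, mul_zero]
  have hpol : pb Q u (y d) = 1 := by
    have h5 := hτ (u + d)
    rw [hy.1.1, Q_add, hQu, hQd, hud] at h5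
    simp only [map_add, LinearMap.add_apply, hBuu, hdd, zero_add, add_zero, mul_zero] at h5
    rw [pb_symm Q d (y u), hyud] at h5
    have h6 : pb Q u (y d) + 1 = 0 := by linear_combination h5
    exact eq_of_add2 h2 h6
  have hsq : sq Q u d ∈ OmQ Q := sg Q h2 hnd hV u d hQu hud
  have hzm : y * sq Q u d * y⁻¹ * (sq Q u d)⁻¹ ∈ OmQ Q :=
    (OmQ Q).mul_mem (OmQ_conj hy hsq) ((OmQ Q).inv_mem hsq)
  refine ⟨y * sq Q u d * y⁻¹ * (sq Q u d)⁻¹, hzm, Gq.comm hsq, ?_⟩
  have hQyu : Q (y u) = 0 := by rw [hy.2, hQu]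
  have hyuyd : pb Q (y u) (y d) = 0 := by rw [OQ_pb hy, hud]
  have hQyd : Q (y d) = 0 := by rw [hy.2, hQd]
  have hz : ∀ v, (y * sq Q u d * y⁻¹ * (sq Q u d)⁻¹) v = sq Q (y u) (y d) (sq Q u d v) := by
    intro v
    rw [sq_conj_mem h2 hy hQu hud, sq_inv, Equiv.Perm.mul_apply]
  have e1 : sq Q u d u = u := by
    rw [sq_apply h2 hQu hud, pb_self2 h2, hud, hQd]
    simp
  have e2 : sq Q u d (y u) = y u + u := by
    rw [sq_apply h2 hQu hud, hBuu', hyud, hQd]
    simp
  have e3 : sq Q (y u) (y d) u = u + y u := by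
    rw [sq_apply h2 hQyu hyuyd, hBuu, hpol, hQyd]
    simp
  have e4 : sq Q (y u) (y d) (y u) = y u := by
    rw [sq_apply h2 hQyu hyuyd, pb_self2 h2, hyuyd, hQyd]
    simp
  apply R3B_NS _ (OmQ_le Q hzm).1 h2 u (y u) hun
  · rw [hz, e1, e3]
  · rw [hz, e2, (sq_mem Q (y u) (y d)).1.1, e4, e3, add_comm u (y u), ← add_assoc, addV h2,
      zero_add]

end Pool.Agent.ORE
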