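import Pool.Agent.helper53.ORE.Spec
import Pool.Agent.helper22.ORE.R3B

set_option autoImplicit false

namespace Pool.Agent.ORE

open Module Pool.Agent.GS

theorem R3A (ns : NSV_stmt) (rp : RP_stmt) : R3A_stmt := by
  intro F V _ _ _ _ _ Q h2 hnd hV y hy a ha hay
  obtain ⟨b, hb1, hb2⟩ := ns Q h2 hnd 3 ![a, y a, y⁻¹ a] (by omega)
  have hba : pb Q b a = 0 := hb1 0
  have hbya : pb Q b (y a) = 0 := hb1 1
  have hbia : pb Q b (y⁻¹ a) = 0 := hb1 2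
  have hb0 : Q b ≠ 0 := by rw [hb2]; exact one_ne_zero
  have hya0 : Q (y a) ≠ 0 := by rw [hy.2]; exact ha
  have hyb0 : Q (y b) ≠ 0 := by rw [hy.2]; exact hb0
  have hyba : pb Q (y b) a = 0 := by
    have h5 := OQ_pb hy b (y⁻¹ a)
    rw [pinv, hbia] at h5
    exact h5
  have hybya : pb Q (y b) (y a) = 0 := by rw [OQ_pb hy, hba]
  have hab : pb Q a b = 0 := by rw [pb_symm, hba]
  have hyab : pb Q (y a) b = 0 := by rw [pb_symm, hbya]
  have hayb : pb Q a (y b) = 0 := by rw [pb_symm, hyba]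
  have hyayb : pb Q (y a) (y b) = 0 := by rw [pb_symm, hybya]
  have ht : rq Q a * rq Q b ∈ OmQ Q := rp Q h2 hnd hV a b ha hb0
  have hzm : y * (rq Q a * rq Q b) * y⁻¹ * (rq Q a * rq Q b)⁻¹ ∈ OmQ Q :=
    (OmQ Q).mul_mem (OmQ_conj hy ht) ((OmQ Q).inv_mem ht)
  refine ⟨y * (rq Q a * rq Q b) * y⁻¹ * (rq Q a * rq Q b)⁻¹, hzm, Gq.comm ht, ?_⟩
  have hz : ∀ v, (y * (rq Q a * rq Q b) * y⁻¹ * (rq Q a * rq Q b)⁻¹) v =
      rq Q (y a) (rq Q (y b) (rq Q b (rq Q a v))) := by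
    intro v
    have e : y * (rq Q a * rq Q b) * y⁻¹ * (rq Q a * rq Q b)⁻¹ =
        (y * rq Q a * y⁻¹) * (y * rq Q b * y⁻¹) * ((rq Q b)⁻¹ * (rq Q a)⁻¹) := by group
    rw [e, rq_conj_mem hy, rq_conj_mem hy, rq_inv, rq_inv, Equiv.Perm.mul_apply,
      Equiv.Perm.mul_apply, Equiv.Perm.mul_apply]
  have e1 : rq Q (y a) a = a + y a := by
    rw [rq_apply h2 hya0, hay, hy.2, div_self ha, one_smul]
  have e2 : rq Q a (y a) = y a + a := by
    rw [rq_apply h2 ha, pb_symm, hay, div_self ha, one_smul]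
  have hlin : ∀ c, rq Q c ∈ OQ Q := fun c => rq_mem Q c
  apply R3B_NS _ (OmQ_le Q hzm).1 h2 a (y a)
  · intro c hc
    rw [hc, map_smul, pb_self2 h2, smul_zero] at hay
    exact ha hay.symm
  · rw [hz, rq_self h2 ha, rq_of_orth h2 hb0 hab, rq_of_orth h2 hyb0 hayb, e1]
  · rw [hz, e2, (hlin b).1.1, (hlin (y b)).1.1, (hlin (y a)).1.1, rq_of_orth h2 hb0 hyab,
      rq_of_orth h2 hb0 hab, rq_of_orth h2 hyb0 hyayb, rq_of_orth h2 hyb0 hayb, rq_self h2 hya0, e1,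
      add_comm a (y a), ← add_assoc, addV h2, zero_add]

end Pool.Agent.ORE
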